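import Pool.Agent.Y931.LD.VMA

set_option autoImplicit false

/-!
LD project (helper745, MP_6bc78b_nt), job LD-VM1, part B: the total weight, the mean square of the weight, and the
trivial bound for the weight.
-/

namespace Pool.Agent.Y931.LD

open Filter Topology MeasureTheory Complex
open Pool.Agent.Y745.SW (P_MVB Py pA)
open Pool.Agent.Y745.LD
open Pool.Agent.Y655.SW (SS VV SS_nonneg)

noncomputable section

lemma LL_tendsto : Tendsto LL atTop atTop := Real.tendsto_log_atTop.comp Real.tendsto_log_atTop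

/-- Mertens' second theorem for the primes up to `exp ((log T)^c)` -/
lemma sc_bound (c : ℝ) (hc : 0 < c) : ∃ C : ℝ, 0 ≤ C ∧ ∀ᶠ T : ℝ in atTop, |sc c T - c * LL T| ≤ C := by
  obtain ⟨C, hC⟩ := Pool.Agent.Helper256.KM.mertens_inv
  have hC0 : 0 ≤ C := (abs_nonneg _).trans (hC 3 le_rfl)
  refine ⟨C + 1, by linarith, ?_⟩
  have hp : Tendsto (fun T : ℝ => Real.log T ^ c) atTop atTop :=
    (tendsto_rpow_atTop hc).comp Real.tendsto_log_atTop
  filter_upwards [hp.eventually_ge_atTop 3, Real.tendsto_log_atTop.eventually_ge_atTop 1] with T h2 h3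
  obtain ⟨x, hx⟩ : ∃ x : ℝ, x = yc c T := ⟨_, rfl⟩
  have hxl : Real.log x = Real.log T ^ c := by rw [hx, yc, Real.log_exp]
  have hx3 : (4 : ℝ) ≤ x := by
    rw [hx, yc]
    have := Real.add_one_le_exp (Real.log T ^ c)
    linarith
  have hfl : 3 ≤ ⌊x⌋₊ := by
    have : 4 ≤ ⌊x⌋₊ := Nat.le_floor (by exact_mod_cast hx3)
    omega
  have hM := hC ⌊x⌋₊ hfl
  have hVV : sc c T = ∑ p ∈ (Finset.Icc 1 ⌊x⌋₊).filter Nat.Prime, (1 : ℝ) / p := by rw [hx]; rfl
  rw [← hVV] at hM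
  have hf1 : (⌊x⌋₊ : ℝ) ≤ x := Nat.floor_le (by linarith)
  have hf2 : x / 2 ≤ (⌊x⌋₊ : ℝ) := by
    have := Nat.lt_floor_add_one x
    linarith
  have hf3 : (3 : ℝ) ≤ (⌊x⌋₊ : ℝ) := by exact_mod_cast hfl
  have hlx : 3 ≤ Real.log x := by rw [hxl]; exact h2
  have hl1 : Real.log x - 1 ≤ Real.log (⌊x⌋₊ : ℝ) := by
    have h5 : Real.log (x / 2) ≤ Real.log (⌊x⌋₊ : ℝ) := Real.log_le_log (by linarith) hf2
    rw [Real.log_div (by linarith) (by norm_num)] at h5
    have := Real.log_two_lt_d9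
    linarith
  have hl2 : Real.log (⌊x⌋₊ : ℝ) ≤ Real.log x := Real.log_le_log (by linarith) hf1
  have hl3 : Real.log (Real.log (⌊x⌋₊ : ℝ)) ≤ Real.log (Real.log x) :=
    Real.log_le_log (by linarith) hl2
  have hl4 : Real.log (Real.log x) - 1 ≤ Real.log (Real.log (⌊x⌋₊ : ℝ)) := by
    have h5 : Real.log (Real.log x / 2) ≤ Real.log (Real.log (⌊x⌋₊ : ℝ)) :=
      Real.log_le_log (by linarith) (by linarith)
    rw [Real.log_div (by linarith) (by norm_num)] at h5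
    have := Real.log_two_lt_d9
    linarith
  have hl5 : Real.log (Real.log x) = c * LL T := by
    rw [hxl, Real.log_rpow (by linarith)]
    rfl
  have h8 := abs_le.1 hM
  rw [abs_le]
  constructor <;> linarith [h8.1, h8.2]

/-- the lengths of the Dirichlet polynomials are small -/
lemma size (c A B δ : ℝ) (hc : 0 < c) (hc1 : c < 1) (hA : 0 ≤ A) (hB : 0 ≤ B) (hδ : 0 < δ) :
    ∀ᶠ T : ℝ in atTop, (A * LL T + 1) * (B + Real.log T ^ c) ≤ δ * Real.log T := by
  have hd : 0 < (1 - c) / 2 := by linarith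
  have h1 : ∀ᶠ L : ℝ in atTop, (A * Real.log L + 1) * (B + L ^ c) ≤ δ * L := by
    have h2 := (isLittleO_log_rpow_atTop hd).bound (c := 1) one_pos
    have h3 := (tendsto_rpow_atTop hd).eventually_ge_atTop ((A + 1) * (B + 1) / δ)
    filter_upwards [h2, h3, eventually_ge_atTop (1 : ℝ)] with L h4 h5 h6
    have hL0 : 0 < L := by linarith
    have h7 : Real.log L ≤ L ^ ((1 - c) / 2) := by
      rw [Real.norm_eq_abs, Real.norm_eq_abs, abs_of_pos (Real.rpow_pos_of_pos hL0 _), one_mul] at h4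
      exact (le_abs_self _).trans h4
    have h8 : 1 ≤ L ^ ((1 - c) / 2) := Real.one_le_rpow h6 hd.le
    have h9 : 1 ≤ L ^ c := Real.one_le_rpow h6 hc.le
    have h10 : A * Real.log L + 1 ≤ (A + 1) * L ^ ((1 - c) / 2) := by nlinarith
    have h11 : B + L ^ c ≤ (B + 1) * L ^ c := by nlinarith
    have h12 : 0 ≤ A * Real.log L + 1 := by
      have := Real.log_nonneg h6
      positivity
    have h13 : L ^ ((1 - c) / 2) * L ^ c * L ^ ((1 - c) / 2) = L := by
      rw [← Real.rpow_add hL0, ← Real.rpow_add hL0]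
      have : (1 - c) / 2 + c + (1 - c) / 2 = 1 := by ring
      rw [this, Real.rpow_one]
    rw [div_le_iff₀ hδ] at h5
    calc (A * Real.log L + 1) * (B + L ^ c) ≤ ((A + 1) * L ^ ((1 - c) / 2)) * ((B + 1) * L ^ c) :=
          mul_le_mul h10 h11 (by positivity) (by positivity)
      _ = ((A + 1) * (B + 1)) * (L ^ ((1 - c) / 2) * L ^ c) := by ring
      _ ≤ (L ^ ((1 - c) / 2) * δ) * (L ^ ((1 - c) / 2) * L ^ c) :=
          mul_le_mul_of_nonneg_right h5 (by positivity)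
      _ = δ * (L ^ ((1 - c) / 2) * L ^ c * L ^ ((1 - c) / 2)) := by ring
      _ = δ * L := by rw [h13]
  exact Real.tendsto_log_atTop.eventually h1

lemma KA_le {A T : ℝ} (h : 0 ≤ A * LL T) : (KA A T : ℝ) ≤ A * LL T + 1 := (Nat.ceil_lt_add_one h).le

lemma le_KA (A T : ℝ) : A * LL T ≤ KA A T := Nat.le_ceil _

lemma yc_ge {c T : ℝ} (hT : 0 ≤ Real.log T) : 1 ≤ yc c T := by
  unfold yc
  exact Real.one_le_exp (Real.rpow_nonneg hT c)

/-- the size of the length, with the error term of the mean value theorem -/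
lemma len (c A : ℝ) (hc : 0 < c) (hc1 : c < 1) (hA : 0 ≤ A) : ∀ᶠ T : ℝ in atTop,
    8 * ((⌊yc c T⌋₊ ^ (2 * KA A T) : ℕ) : ℝ) * (1 + Real.log ((⌊yc c T⌋₊ ^ (2 * KA A T) : ℕ) : ℝ)) ≤ T / 2 := by
  filter_upwards [size c A 0 (1 / 40) hc hc1 hA le_rfl (by norm_num), eventually_gt_atTop (1 : ℝ),
    Real.tendsto_log_atTop.eventually_ge_atTop 4, LL_tendsto.eventually_ge_atTop 0] with T h1 h2 h3 h4
  obtain ⟨L, hL⟩ : ∃ L : ℝ, L = Real.log T := ⟨_, rfl⟩
  rw [← hL] at h1 h3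
  have hT : T = Real.exp L := by rw [hL, Real.exp_log (by linarith)]
  have hy1 : 1 ≤ yc c T := yc_ge (by linarith)
  obtain ⟨N, hN⟩ : ∃ N : ℕ, N = ⌊yc c T⌋₊ ^ (2 * KA A T) := ⟨_, rfl⟩
  rw [← hN]
  have hN1 : 1 ≤ N := by rw [hN]; exact Nat.one_le_pow _ _ (floor_pos hy1)
  have hN1' : (1 : ℝ) ≤ N := by exact_mod_cast hN1
  have h5 : (N : ℝ) ≤ Real.exp (L / 20) := by
    rw [hN]
    push_cast
    calc (⌊yc c T⌋₊ : ℝ) ^ (2 * KA A T) ≤ (yc c T) ^ (2 * KA A T) :=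
          pow_le_pow_left₀ (Nat.cast_nonneg _) (Nat.floor_le (by linarith)) _
      _ = Real.exp (((2 * KA A T : ℕ) : ℝ) * L ^ c) := by
          unfold yc
          rw [← Real.exp_nat_mul, hL]
      _ ≤ Real.exp (L / 20) := by
          refine Real.exp_le_exp.2 ?_
          push_cast
          have h6 := KA_le (mul_nonneg hA h4)
          have h7 : 0 ≤ L ^ c := Real.rpow_nonneg (by linarith) c
          rw [zero_add] at h1
          nlinarith
  have h6 : Real.log N ≤ N - 1 := Real.log_le_sub_one_of_pos (by linarith)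
  have h7 : 8 * (N : ℝ) * (1 + Real.log N) ≤ 8 * (N : ℝ) * N := by
    refine mul_le_mul_of_nonneg_left (by linarith) (by positivity)
  have h8 : (N : ℝ) * N ≤ Real.exp (L / 10) := by
    calc (N : ℝ) * N ≤ Real.exp (L / 20) * Real.exp (L / 20) := mul_le_mul h5 h5 (by positivity) (Real.exp_pos _).le
      _ = Real.exp (L / 10) := by rw [← Real.exp_add]; congr 1; ring
  have h9 : 16 * Real.exp (L / 10) ≤ Real.exp L := by
    have h10 : (16 : ℝ) ≤ Real.exp (9 / 10 * L) := by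
      have h11 : Real.exp 3 ≤ Real.exp (9 / 10 * L) := Real.exp_le_exp.2 (by linarith)
      have h12 : Real.exp 3 = Real.exp 1 ^ 3 := by rw [← Real.exp_nat_mul]; norm_num
      have h13 : (2.7 : ℝ) ^ 3 ≤ Real.exp 1 ^ 3 :=
        pow_le_pow_left₀ (by norm_num) (by have := Real.exp_one_gt_d9; linarith) 3
      rw [← h12] at h13
      norm_num at h13
      linarith
    calc 16 * Real.exp (L / 10) ≤ Real.exp (9 / 10 * L) * Real.exp (L / 10) :=
          mul_le_mul_of_nonneg_right h10 (Real.exp_pos _).le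
      _ = Real.exp L := by rw [← Real.exp_add]; congr 1; ring
  rw [← hT] at h9
  linarith

/-- the trivial bound for the sum over the small primes -/
lemma norm_Pc_le {c T : ℝ} (hT : 0 ≤ Real.log T) (t : ℝ) : ‖Pc c T t‖ ≤ yc c T := by
  unfold Pc Py
  have h1 : ‖∑ p ∈ (Finset.Icc 1 ⌊yc c T⌋₊).filter Nat.Prime, (p : ℂ) ^ (-(1 / 2 + (t : ℂ) * I))‖ ≤
      ∑ p ∈ (Finset.Icc 1 ⌊yc c T⌋₊).filter Nat.Prime, (1 : ℝ) := by
    refine (norm_sum_le _ _).trans (Finset.sum_le_sum fun p hp => ?_)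
    rw [Finset.mem_filter, Finset.mem_Icc] at hp
    have hp0 : 0 < p := hp.2.pos
    rw [Complex.norm_natCast_cpow_of_pos hp0]
    have h2 : (-(1 / 2 + (t : ℂ) * I)).re = -(1 / 2) := by simp
    rw [h2]
    have h3 : (1 : ℝ) ≤ p := by exact_mod_cast hp0
    exact Real.rpow_le_one_of_one_le_of_nonpos h3 (by norm_num)
  refine h1.trans ?_
  rw [Finset.sum_const, nsmul_eq_mul, mul_one]
  have h4 : ((Finset.Icc 1 ⌊yc c T⌋₊).filter Nat.Prime).card ≤ ⌊yc c T⌋₊ := by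
    refine (Finset.card_filter_le _ _).trans ?_
    rw [Nat.card_Icc]
    omega
  have h5 : (((Finset.Icc 1 ⌊yc c T⌋₊).filter Nat.Prime).card : ℝ) ≤ (⌊yc c T⌋₊ : ℝ) := by exact_mod_cast h4
  exact h5.trans (Nat.floor_le (by have := yc_ge (c := c) hT; linarith))

lemma norm_tex_le (K : ℕ) (z : ℂ) : ‖tex K z‖ ≤ (K + 1) * (1 + ‖z‖) ^ K := by
  unfold tex
  have h1 : ‖∑ j ∈ Finset.range (K + 1), z ^ j / (j.factorial : ℂ)‖ ≤
      ∑ j ∈ Finset.range (K + 1), (1 + ‖z‖) ^ K := by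
    refine (norm_sum_le _ _).trans (Finset.sum_le_sum fun j hj => ?_)
    rw [Finset.mem_range] at hj
    rw [norm_div, norm_pow, Complex.norm_natCast]
    have h2 : (1 : ℝ) ≤ j.factorial := by exact_mod_cast Nat.one_le_iff_ne_zero.2 (Nat.factorial_ne_zero j)
    have h3 : 0 ≤ ‖z‖ := norm_nonneg z
    calc ‖z‖ ^ j / (j.factorial : ℝ) ≤ ‖z‖ ^ j := div_le_self (by positivity) h2
      _ ≤ (1 + ‖z‖) ^ j := pow_le_pow_left₀ h3 (by linarith) j
      _ ≤ (1 + ‖z‖) ^ K := pow_le_pow_right₀ (by linarith) (by omega)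
  refine h1.trans (le_of_eq ?_)
  rw [Finset.sum_const, Finset.card_range, nsmul_eq_mul]
  push_cast
  ring

/-- the trivial bound for the weight -/
lemma V_le (κ c A : ℝ) (hc : 0 < c) (hc1 : c < 1) (hA : 0 ≤ A) : ∀ᶠ T : ℝ in atTop,
    ∀ t : ℝ, V κ c A T t ≤ T ^ (1 / 4 : ℝ) := by
  have hB : 0 ≤ 1 + Real.log (1 + |κ|) := by
    have := Real.log_nonneg (show (1 : ℝ) ≤ 1 + |κ| by have := abs_nonneg κ; linarith)
    linarith
  filter_upwards [size c A (1 + Real.log (1 + |κ|)) (1 / 8) hc hc1 hA hB (by norm_num),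
    eventually_gt_atTop (1 : ℝ), LL_tendsto.eventually_ge_atTop 0,
    Real.tendsto_log_atTop.eventually_ge_atTop 0] with T h1 h2 h3 h4 t
  have hT0 : 0 < T := by linarith
  have hy1 : 1 ≤ yc c T := yc_ge h4
  have h5 : ‖Qk κ c A T t‖ ≤ Real.exp (1 / 8 * Real.log T) := by
    unfold Qk
    refine (norm_tex_le _ _).trans ?_
    have h6 : 1 + ‖(κ : ℂ) * Pc c T t‖ ≤ Real.exp (Real.log (1 + |κ|) + Real.log T ^ c) := by
      have hk : (0 : ℝ) < 1 + |κ| := by positivity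
      rw [Real.exp_add, Real.exp_log hk, norm_mul, Complex.norm_real, Real.norm_eq_abs]
      have h7 := norm_Pc_le (c := c) h4 t
      have h8 : |κ| * ‖Pc c T t‖ ≤ |κ| * yc c T := mul_le_mul_of_nonneg_left h7 (abs_nonneg _)
      have h9 : yc c T = Real.exp (Real.log T ^ c) := rfl
      rw [← h9]
      nlinarith
    have h7 : (KA A T : ℝ) + 1 ≤ Real.exp (KA A T : ℝ) := Real.add_one_le_exp _
    calc ((KA A T : ℝ) + 1) * (1 + ‖(κ : ℂ) * Pc c T t‖) ^ (KA A T) ≤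
          Real.exp (KA A T : ℝ) * (Real.exp (Real.log (1 + |κ|) + Real.log T ^ c)) ^ (KA A T) :=
          mul_le_mul h7 (pow_le_pow_left₀ (by positivity) h6 _) (by positivity) (Real.exp_pos _).le
      _ = Real.exp ((KA A T : ℝ) * (1 + Real.log (1 + |κ|) + Real.log T ^ c)) := by
          rw [← Real.exp_nat_mul, ← Real.exp_add]
          congr 1
          ring
      _ ≤ Real.exp (1 / 8 * Real.log T) := by
          refine Real.exp_le_exp.2 (le_trans ?_ h1)
          refine mul_le_mul_of_nonneg_right (KA_le (mul_nonneg hA h3)) ?_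
          have := Real.rpow_nonneg h4 c
          linarith
  unfold V
  calc ‖Qk κ c A T t‖ ^ 2 ≤ Real.exp (1 / 8 * Real.log T) ^ 2 := pow_le_pow_left₀ (norm_nonneg _) h5 2
    _ = T ^ (1 / 4 : ℝ) := by
        rw [← Real.exp_nat_mul, Real.rpow_def_of_pos hT0]
        congr 1
        push_cast
        ring

lemma Qk_eq (κ c A T t : ℝ) : Qk κ c A T t =
    ∑ m ∈ Finset.range (KA A T + 1), ((κ ^ m / (m.factorial : ℝ) : ℝ) : ℂ) * Py (yc c T) t ^ m := by
  unfold Qk tex Pc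
  refine Finset.sum_congr rfl fun m _ => ?_
  push_cast
  rw [mul_pow]
  ring

lemma V_sq_eq (κ c A T t : ℝ) : V κ c A T t ^ 2 =
    ‖∑ m ∈ Finset.range (2 * KA A T + 1), ((c2 κ (KA A T) m : ℝ) : ℂ) * Py (yc c T) t ^ m‖ ^ 2 := by
  rw [← tex_sq]
  unfold V Qk Pc
  rw [norm_pow]

theorem t_VM1 (hMVB : P_MVB) : P_VM1 := by
  intro κ c hc hc1
  obtain ⟨C1, hC1, hM⟩ := sc_bound c hc
  refine ⟨κ ^ 2 * Real.exp 1 + 1, fun A hA => ?_⟩
  have hA0 : 0 ≤ A := by
    have : 0 ≤ κ ^ 2 * Real.exp 1 := by positivity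
    linarith
  have hE : 1 ≤ Real.exp (2 * κ ^ 4) := Real.one_le_exp (by positivity)
  refine ⟨C1 + 4 * Real.exp (2 * κ ^ 4), by linarith, ?_⟩
  filter_upwards [hM, len c A hc hc1 hA0, V_le κ c A hc hc1 hA0, eventually_gt_atTop (1 : ℝ),
    LL_tendsto.eventually_ge_atTop 0,
    LL_tendsto.eventually_ge_atTop (κ ^ 2 * Real.exp 1 * C1 + 2 * κ ^ 4 + 1),
    Real.tendsto_log_atTop.eventually_ge_atTop 0] with T h1 h2 h3 h4 h5 h6 h7
  have hT0 : 0 < T := by linarith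
  have hy1 : 1 ≤ yc c T := yc_ge h7
  have hy0 : 0 ≤ yc c T := by linarith
  have hTT : T ≤ 2 * T := by linarith
  obtain ⟨s, hs⟩ : ∃ s : ℝ, s = sc c T := ⟨_, rfl⟩
  have hsV : VV (yc c T) = s := by rw [hs]; rfl
  have hs0 : 0 ≤ s := by rw [← hsV]; exact VV_nonneg _
  obtain ⟨N, hN⟩ : ∃ N : ℕ, N = ⌊yc c T⌋₊ ^ (2 * KA A T) := ⟨_, rfl⟩
  rw [← hN] at h2
  rw [← hs] at h1 ⊢
  refine ⟨h1.trans (by linarith), ?_, ?_, fun t _ => h3 t⟩
  · -- the lower bound
    have hN1 : ⌊yc c T⌋₊ ^ KA A T ≤ N := by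
      rw [hN]
      exact Nat.pow_le_pow_right (floor_pos hy1) (by omega)
    have h8 := mean_sq hMVB hy1 (KA A T) N (fun m => κ ^ m / (m.factorial : ℝ)) hN1 hTT
    have h9 := lower_sum hy0 κ (KA A T)
    rw [hsV] at h9
    obtain ⟨SG, hSG⟩ : ∃ x : ℝ, x = ∑ m ∈ Finset.range (KA A T + 1), (κ ^ m / (m.factorial : ℝ)) ^ 2 * SS (yc c T) m :=
      ⟨_, rfl⟩
    have hI : (∫ t in T..(2 * T), ‖∑ m ∈ Finset.range (KA A T + 1),
        (((fun m => κ ^ m / (m.factorial : ℝ)) m : ℝ) : ℂ) * Py (yc c T) t ^ m‖ ^ 2) = IV κ c A T := by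
      unfold IV V
      simp only [Qk_eq]
    rw [hI] at h8
    simp only [← hSG] at h8
    rw [← hSG] at h9
    have hSG0 : 0 ≤ SG := by
      rw [hSG]
      exact Finset.sum_nonneg fun m _ => mul_nonneg (sq_nonneg _) (SS_nonneg _ _)
    -- the tail
    have h10 : Real.exp (-(KA A T : ℝ)) * Real.exp (κ ^ 2 * Real.exp 1 * s) ≤
        1 / 2 * (Real.exp (-(2 * κ ^ 4)) * Real.exp (κ ^ 2 * s)) := by
      have h11 : -(KA A T : ℝ) + κ ^ 2 * Real.exp 1 * s ≤ -1 + (-(2 * κ ^ 4)) := by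
        have h12 := le_KA A T
        have h13 : (κ ^ 2 * Real.exp 1 + 1) * LL T ≤ A * LL T := mul_le_mul_of_nonneg_right hA h5
        have h14 : s ≤ LL T + C1 := by
          have := (abs_le.1 h1).2
          nlinarith
        have h15 : κ ^ 2 * Real.exp 1 * s ≤ κ ^ 2 * Real.exp 1 * (LL T + C1) :=
          mul_le_mul_of_nonneg_left h14 (by positivity)
        nlinarith
      have h12 : Real.exp (-1) ≤ 1 / 2 := by
        rw [Real.exp_neg, ← one_div]
        refine one_div_le_one_div_of_le (by norm_num) ?_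
        have := Real.exp_one_gt_d9
        linarith
      have h13 : 1 ≤ Real.exp (κ ^ 2 * s) := Real.one_le_exp (by positivity)
      calc Real.exp (-(KA A T : ℝ)) * Real.exp (κ ^ 2 * Real.exp 1 * s)
          = Real.exp (-(KA A T : ℝ) + κ ^ 2 * Real.exp 1 * s) := by rw [← Real.exp_add]
        _ ≤ Real.exp (-1 + (-(2 * κ ^ 4))) := Real.exp_le_exp.2 h11
        _ = Real.exp (-1) * Real.exp (-(2 * κ ^ 4)) := by rw [Real.exp_add]
        _ ≤ 1 / 2 * (Real.exp (-(2 * κ ^ 4)) * Real.exp (κ ^ 2 * s)) := by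
            have h14 : 0 < Real.exp (-(2 * κ ^ 4)) := Real.exp_pos _
            have h15 : Real.exp (-(2 * κ ^ 4)) ≤ Real.exp (-(2 * κ ^ 4)) * Real.exp (κ ^ 2 * s) :=
              le_mul_of_one_le_right h14.le h13
            exact mul_le_mul h12 h15 h14.le (by norm_num)
    have h11 : 1 / 2 * (Real.exp (-(2 * κ ^ 4)) * Real.exp (κ ^ 2 * s)) ≤ SG := by linarith
    have h12 : T / 2 * SG ≤ IV κ c A T := by
      have h13 := (abs_le.1 h8).1
      have h14 : 8 * (N : ℝ) * (1 + Real.log N) * SG ≤ T / 2 * SG := mul_le_mul_of_nonneg_right h2 hSG0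
      have h15 : (2 * T - T) * SG = T * SG := by ring
      rw [h15] at h13
      linarith
    have h13 : Real.exp (2 * κ ^ 4) * Real.exp (-(2 * κ ^ 4)) = 1 := by
      rw [← Real.exp_add]; simp
    have h14 : T / 2 * (1 / 2 * (Real.exp (-(2 * κ ^ 4)) * Real.exp (κ ^ 2 * s))) ≤ IV κ c A T :=
      (mul_le_mul_of_nonneg_left h11 (by positivity)).trans h12
    have h15 : 0 ≤ IV κ c A T := le_trans (by positivity) h14
    calc T * Real.exp (κ ^ 2 * s)
        = 4 * Real.exp (2 * κ ^ 4) * (T / 2 * (1 / 2 * (Real.exp (-(2 * κ ^ 4)) * Real.exp (κ ^ 2 * s)))) := by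
          linear_combination (-(T * Real.exp (κ ^ 2 * s))) * h13
      _ ≤ 4 * Real.exp (2 * κ ^ 4) * IV κ c A T := mul_le_mul_of_nonneg_left h14 (by positivity)
      _ ≤ (C1 + 4 * Real.exp (2 * κ ^ 4)) * IV κ c A T := mul_le_mul_of_nonneg_right (by linarith) h15
  · -- the upper bound
    have h8 := mean_sq hMVB hy1 (2 * KA A T) N (fun m => c2 κ (KA A T) m) (le_of_eq hN.symm) hTT
    have h9 := upper_sum hy0 κ (KA A T) (2 * KA A T)
    rw [hsV] at h9
    obtain ⟨SG, hSG⟩ : ∃ x : ℝ, x = ∑ m ∈ Finset.range (2 * KA A T + 1), c2 κ (KA A T) m ^ 2 * SS (yc c T) m :=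
      ⟨_, rfl⟩
    have hI : (∫ t in T..(2 * T), ‖∑ m ∈ Finset.range (2 * KA A T + 1),
        (((fun m => c2 κ (KA A T) m) m : ℝ) : ℂ) * Py (yc c T) t ^ m‖ ^ 2) = ∫ t in T..(2 * T), V κ c A T t ^ 2 := by
      simp only [V_sq_eq]
    rw [hI] at h8
    simp only [← hSG] at h8
    rw [← hSG] at h9
    have hSG0 : 0 ≤ SG := by
      rw [hSG]
      exact Finset.sum_nonneg fun m _ => mul_nonneg (sq_nonneg _) (SS_nonneg _ _)
    have h13 := (abs_le.1 h8).2
    have h14 : 8 * (N : ℝ) * (1 + Real.log N) * SG ≤ T / 2 * SG := mul_le_mul_of_nonneg_right h2 hSG0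
    have h15 : (2 * T - T) * SG = T * SG := by ring
    rw [h15] at h13
    calc ∫ t in T..(2 * T), V κ c A T t ^ 2 ≤ (3 / 2 * T) * SG := by linarith
      _ ≤ (3 / 2 * T) * Real.exp (4 * κ ^ 2 * s) := mul_le_mul_of_nonneg_left h9 (by positivity)
      _ = 3 / 2 * (T * Real.exp (4 * κ ^ 2 * s)) := by ring
      _ ≤ (C1 + 4 * Real.exp (2 * κ ^ 4)) * (T * Real.exp (4 * κ ^ 2 * s)) :=
          mul_le_mul_of_nonneg_right (by linarith) (by positivity)

end

end Pool.Agent.Y931.LD
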