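import Pool.Agent.Y745.LD.DefsA
import Pool.Agent.Y655.SW.MC
import Pool.Agent.Y41.SW.FM

set_option autoImplicit false

/-!
LD project (helper745, MP_6bc78b_nt), job LD-VM1, part A: mean squares of polynomials in the sum over the small primes,
and bounds for the sums of the squares of the coefficients.
-/

namespace Pool.Agent.Y931.LD

open Filter Topology MeasureTheory Complex
open Pool.Agent.Y745.SW (P_MVB Py pA)
open Pool.Agent.Y655.SW (SS VV SS_eq SS_upper SS_nonneg pA_orth pA_pow_le pA_rec mem_Pr pA_apply)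
open Pool.Agent.Y41.SW (DP DP_extend DP_pow pA_supp supp_pow Py_eq)

noncomputable section

/-- the coefficients of a polynomial in `Py` -/
def cf (y : ℝ) (M : ℕ) (c : ℕ → ℝ) (n : ℕ) : ℝ := ∑ m ∈ Finset.range (M + 1), c m * (pA y ^ m) n

lemma floor_pos {y : ℝ} (hy : 1 ≤ y) : 1 ≤ ⌊y⌋₊ := Nat.le_floor (by simpa using hy)

lemma poly_DP {y : ℝ} (hy : 1 ≤ y) (M N : ℕ) (c : ℕ → ℝ) (hN : ⌊y⌋₊ ^ M ≤ N) (t : ℝ) :
    ∑ m ∈ Finset.range (M + 1), (c m : ℂ) * Py y t ^ m =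
      ∑ n ∈ Finset.Icc 1 N, ((cf y M c n : ℝ) : ℂ) * (n : ℂ) ^ (-(t : ℂ) * I) := by
  have h1 : ∀ m ∈ Finset.range (M + 1), (c m : ℂ) * Py y t ^ m =
      ∑ n ∈ Finset.Icc 1 N, (c m : ℂ) * (((pA y ^ m) n : ℝ) : ℂ) * (n : ℂ) ^ (-(t : ℂ) * I) := by
    intro m hm
    rw [Finset.mem_range] at hm
    have h2 : ⌊y⌋₊ ^ m ≤ N := (Nat.pow_le_pow_right (floor_pos hy) (by omega)).trans hN
    rw [Py_eq, DP_pow _ _ (pA_supp _), DP_extend _ _ _ h2 (supp_pow _ _ (pA_supp _) m) t]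
    unfold DP
    rw [Finset.mul_sum]
    refine Finset.sum_congr rfl fun n _ => ?_
    ring
  rw [Finset.sum_congr rfl h1, Finset.sum_comm]
  refine Finset.sum_congr rfl fun n _ => ?_
  unfold cf
  push_cast
  rw [Finset.sum_mul]

lemma cf_sq {y : ℝ} (hy : 0 ≤ y) (M : ℕ) (c : ℕ → ℝ) (n : ℕ) :
    cf y M c n ^ 2 = ∑ m ∈ Finset.range (M + 1), c m ^ 2 * (pA y ^ m) n ^ 2 := by
  unfold cf
  rw [sq, Finset.sum_mul_sum]
  refine Finset.sum_congr rfl fun m hm => ?_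
  rw [Finset.sum_eq_single_of_mem m hm]
  · ring
  · intro m' _ hne
    have := pA_orth hy hne n
    linear_combination (c m * c m') * this

lemma sum_cf_sq {y : ℝ} (hy : 1 ≤ y) (M N : ℕ) (c : ℕ → ℝ) (hN : ⌊y⌋₊ ^ M ≤ N) :
    ∑ n ∈ Finset.Icc 1 N, cf y M c n ^ 2 = ∑ m ∈ Finset.range (M + 1), c m ^ 2 * SS y m := by
  have hy0 : 0 ≤ y := by linarith
  rw [Finset.sum_congr rfl fun n _ => cf_sq hy0 M c n, Finset.sum_comm]
  refine Finset.sum_congr rfl fun m hm => ?_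
  rw [Finset.mem_range] at hm
  rw [← Finset.mul_sum, SS_eq hy0 m N ((Nat.pow_le_pow_right (floor_pos hy) (by omega)).trans hN)]

lemma mean_sq (hMVB : P_MVB) {y : ℝ} (hy : 1 ≤ y) (M N : ℕ) (c : ℕ → ℝ) (hN : ⌊y⌋₊ ^ M ≤ N)
    {T1 T2 : ℝ} (hT : T1 ≤ T2) :
    |(∫ t in T1..T2, ‖∑ m ∈ Finset.range (M + 1), (c m : ℂ) * Py y t ^ m‖ ^ 2) -
      (T2 - T1) * ∑ m ∈ Finset.range (M + 1), c m ^ 2 * SS y m| ≤
      8 * N * (1 + Real.log N) * ∑ m ∈ Finset.range (M + 1), c m ^ 2 * SS y m := by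
  have h := hMVB N T1 T2 hT (fun n => ((cf y M c n : ℝ) : ℂ)) (fun n => ((cf y M c n : ℝ) : ℂ))
  have h0 : 0 ≤ ∑ m ∈ Finset.range (M + 1), c m ^ 2 * SS y m :=
    Finset.sum_nonneg fun m _ => mul_nonneg (sq_nonneg _) (SS_nonneg _ _)
  have h1 : ∑ n ∈ Finset.Icc 1 N, ‖((cf y M c n : ℝ) : ℂ)‖ ^ 2 =
      ∑ m ∈ Finset.range (M + 1), c m ^ 2 * SS y m := by
    rw [← sum_cf_sq hy M N c hN]
    refine Finset.sum_congr rfl fun n _ => ?_
    rw [Complex.norm_real, Real.norm_eq_abs, sq_abs]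
  have h2 : ∑ n ∈ Finset.Icc 1 N, ((cf y M c n : ℝ) : ℂ) * (starRingEnd ℂ) ((cf y M c n : ℝ) : ℂ) =
      ((∑ m ∈ Finset.range (M + 1), c m ^ 2 * SS y m : ℝ) : ℂ) := by
    rw [← sum_cf_sq hy M N c hN]
    push_cast
    refine Finset.sum_congr rfl fun n _ => ?_
    rw [Complex.conj_ofReal, sq]
  have h3 : ∀ t : ℝ, (∑ n ∈ Finset.Icc 1 N, ((cf y M c n : ℝ) : ℂ) * (n : ℂ) ^ (-(t : ℂ) * I)) *
      (starRingEnd ℂ) (∑ n ∈ Finset.Icc 1 N, ((cf y M c n : ℝ) : ℂ) * (n : ℂ) ^ (-(t : ℂ) * I)) =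
      ((‖∑ m ∈ Finset.range (M + 1), (c m : ℂ) * Py y t ^ m‖ ^ 2 : ℝ) : ℂ) := by
    intro t
    rw [← poly_DP hy M N c hN t, Complex.mul_conj, Complex.normSq_eq_norm_sq]
  simp only [h3] at h
  rw [h1, h2, Real.mul_self_sqrt h0, intervalIntegral.integral_ofReal, ← Complex.ofReal_mul,
    ← Complex.ofReal_sub, Complex.norm_real, Real.norm_eq_abs] at h
  exact h

/-! ### the upper bound -/

lemma SS_zero (y : ℝ) : SS y 0 = 1 := by
  unfold SS
  simp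

lemma VV_nonneg (y : ℝ) : 0 ≤ VV y := Finset.sum_nonneg fun _ _ => by positivity

lemma SS_le {y : ℝ} (hy : 0 ≤ y) (m : ℕ) : SS y m ≤ m.factorial * VV y ^ m := by
  induction m with
  | zero => rw [SS_zero]; simp
  | succ m ih =>
    refine (SS_upper hy m).trans ?_
    rw [Nat.factorial_succ]
    push_cast
    calc ((m : ℝ) + 1) * (VV y * SS y m) ≤ ((m : ℝ) + 1) * (VV y * (m.factorial * VV y ^ m)) := by
          have := VV_nonneg y
          gcongr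
      _ = _ := by ring

/-- the coefficients of the square -/
def c2 (κ : ℝ) (K m : ℕ) : ℝ :=
  ∑ x ∈ (Finset.range (K + 1) ×ˢ Finset.range (K + 1)).filter (fun x => x.1 + x.2 = m),
    (κ ^ x.1 / (x.1.factorial : ℝ)) * (κ ^ x.2 / (x.2.factorial : ℝ))

lemma tex_sq (κ : ℝ) (K : ℕ) (z : ℂ) :
    (Pool.Agent.Y745.LD.tex K ((κ : ℂ) * z)) ^ 2 =
      ∑ m ∈ Finset.range (2 * K + 1), ((c2 κ K m : ℝ) : ℂ) * z ^ m := by
  unfold Pool.Agent.Y745.LD.tex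
  rw [sq, Finset.sum_mul_sum, ← Finset.sum_product']
  have hmap : ∀ x ∈ Finset.range (K + 1) ×ˢ Finset.range (K + 1), x.1 + x.2 ∈ Finset.range (2 * K + 1) := by
    intro x hx
    simp only [Finset.mem_product, Finset.mem_range] at hx ⊢
    omega
  rw [← Finset.sum_fiberwise_of_maps_to hmap]
  refine Finset.sum_congr rfl fun m _ => ?_
  unfold c2
  push_cast
  rw [Finset.sum_mul]
  refine Finset.sum_congr rfl fun x hx => ?_
  rw [Finset.mem_filter] at hx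
  rw [← hx.2, pow_add, mul_pow, mul_pow]
  ring

lemma c2_le (κ : ℝ) (K m : ℕ) : |c2 κ K m| ≤ (2 * |κ|) ^ m / (m.factorial : ℝ) := by
  unfold c2
  refine (Finset.abs_sum_le_sum_abs _ _).trans ?_
  have h1 : ∑ x ∈ (Finset.range (K + 1) ×ˢ Finset.range (K + 1)).filter (fun x => x.1 + x.2 = m),
      |(κ ^ x.1 / (x.1.factorial : ℝ)) * (κ ^ x.2 / (x.2.factorial : ℝ))| ≤
      ∑ x ∈ Finset.HasAntidiagonal.antidiagonal m, |(κ ^ x.1 / (x.1.factorial : ℝ)) * (κ ^ x.2 / (x.2.factorial : ℝ))| := by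
    refine Finset.sum_le_sum_of_subset_of_nonneg ?_ fun _ _ _ => abs_nonneg _
    intro x hx
    rw [Finset.mem_filter] at hx
    rw [Finset.HasAntidiagonal.mem_antidiagonal]
    exact hx.2
  refine h1.trans (le_of_eq ?_)
  have h2 : ∀ x ∈ Finset.HasAntidiagonal.antidiagonal m, |(κ ^ x.1 / (x.1.factorial : ℝ)) * (κ ^ x.2 / (x.2.factorial : ℝ))| =
      |κ| ^ m / (m.factorial : ℝ) * (m.choose x.1 : ℝ) := by
    intro x hx
    rw [Finset.HasAntidiagonal.mem_antidiagonal] at hx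
    have hx1 : x.1 ≤ m := by omega
    rw [abs_mul, abs_div, abs_div, abs_pow, abs_pow, Nat.abs_cast, Nat.abs_cast]
    have h3 : (m.factorial : ℝ) = (m.choose x.1 : ℝ) * x.1.factorial * x.2.factorial := by
      have := Nat.choose_mul_factorial_mul_factorial hx1
      rw [show m - x.1 = x.2 by omega] at this
      exact_mod_cast this.symm
    have h4 : |κ| ^ m = |κ| ^ x.1 * |κ| ^ x.2 := by rw [← pow_add, hx]
    have h5 : (m.choose x.1 : ℝ) ≠ 0 := by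
      have := Nat.choose_pos hx1
      positivity
    rw [h3, h4]
    field_simp
  rw [Finset.sum_congr rfl h2, ← Finset.mul_sum]
  have h6 : ∑ x ∈ Finset.HasAntidiagonal.antidiagonal m, (m.choose x.1 : ℝ) = 2 ^ m := by
    have := Nat.sum_range_choose m
    rw [Finset.Nat.sum_antidiagonal_eq_sum_range_succ_mk]
    exact_mod_cast this
  rw [h6, mul_pow]
  ring

lemma upper_sum {y : ℝ} (hy : 0 ≤ y) (κ : ℝ) (K M : ℕ) :
    ∑ m ∈ Finset.range (M + 1), c2 κ K m ^ 2 * SS y m ≤ Real.exp (4 * κ ^ 2 * VV y) := by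
  have h0 : 0 ≤ 4 * κ ^ 2 * VV y := by
    have := VV_nonneg y
    positivity
  refine le_trans (Finset.sum_le_sum fun m _ => ?_) (Real.sum_le_exp_of_nonneg h0 (M + 1))
  have h1 : c2 κ K m ^ 2 ≤ ((2 * |κ|) ^ m / (m.factorial : ℝ)) ^ 2 := by
    rw [← sq_abs]
    exact pow_le_pow_left₀ (abs_nonneg _) (c2_le κ K m) 2
  calc c2 κ K m ^ 2 * SS y m ≤ ((2 * |κ|) ^ m / (m.factorial : ℝ)) ^ 2 * (m.factorial * VV y ^ m) :=
        mul_le_mul h1 (SS_le hy m) (SS_nonneg _ _) (sq_nonneg _)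
    _ = (4 * κ ^ 2 * VV y) ^ m / m.factorial := by
        have h2 : ((2 * |κ|) ^ m) ^ 2 = (4 * κ ^ 2) ^ m := by
          rw [← pow_mul, mul_comm m 2, pow_mul, mul_pow, sq_abs]
          norm_num
        rw [div_pow, h2, mul_pow (4 * κ ^ 2)]
        field_simp

/-! ### the lower bound -/

lemma pA_prod {y : ℝ} (hy : 0 ≤ y) (S : Finset ℕ) (hS : S ⊆ Pool.Agent.Y655.SW.Pr y) :
    (pA y ^ S.card) (∏ p ∈ S, p) ^ 2 = (S.card.factorial : ℝ) ^ 2 * ∏ p ∈ S, (1 / (p : ℝ)) := by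
  induction S using Finset.induction_on with
  | empty => simp
  | insert p S hp ih =>
    have hS' : S ⊆ Pool.Agent.Y655.SW.Pr y := fun q hq => hS (Finset.mem_insert_of_mem hq)
    have ih' := ih hS'
    have hpP : p ∈ Pool.Agent.Y655.SW.Pr y := hS (Finset.mem_insert_self _ _)
    have hpr := ((mem_Pr hy).1 hpP).1
    have hSpr : ∀ q ∈ S, q.Prime := fun q hq => ((mem_Pr hy).1 (hS' hq)).1
    have hm0 : (∏ q ∈ S, q) ≠ 0 := Finset.prod_ne_zero_iff.2 fun q hq => (hSpr q hq).ne_zero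
    rw [Finset.card_insert_of_notMem hp, Finset.prod_insert hp, Finset.prod_insert hp]
    have h1 := pA_rec hy hpP S.card (∏ q ∈ S, q) hm0
    have h2 : (∏ q ∈ S, q).factorization p = 0 := by
      refine Nat.factorization_eq_zero_of_not_dvd ?_
      intro hd
      rw [Prime.dvd_finset_prod_iff hpr.prime] at hd
      obtain ⟨q, hq, hd⟩ := hd
      have := (Nat.prime_dvd_prime_iff_eq hpr (hSpr q hq)).1 hd
      exact hp (this ▸ hq)
    rw [h2] at h1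
    have h3 : (pA y ^ (S.card + 1)) (p * ∏ q ∈ S, q) =
        (S.card + 1) * ((Real.sqrt p)⁻¹ * (pA y ^ S.card) (∏ q ∈ S, q)) := by
      have h4 : (((0 : ℕ) : ℝ) + 1) = 1 := by norm_num
      rw [h4, one_mul] at h1
      exact h1
    have h5 : (Real.sqrt p)⁻¹ ^ 2 = 1 / (p : ℝ) := by
      rw [inv_pow, Real.sq_sqrt (Nat.cast_nonneg _), one_div]
    rw [h3, mul_pow, mul_pow, h5, ih', Nat.factorial_succ]
    push_cast
    ring

lemma SS_ge {y : ℝ} (hy : 0 ≤ y) (k : ℕ) :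
    (k.factorial : ℝ) ^ 2 * ∑ S ∈ Finset.powersetCard k (Pool.Agent.Y655.SW.Pr y), ∏ p ∈ S, (1 / (p : ℝ)) ≤
      SS y k := by
  classical
  have hpr : ∀ S ∈ Finset.powersetCard k (Pool.Agent.Y655.SW.Pr y), ∀ p ∈ S, p.Prime := by
    intro S hS p hp
    exact ((mem_Pr hy).1 ((Finset.mem_powersetCard.1 hS).1 hp)).1
  have hinj : Set.InjOn (fun S : Finset ℕ => ∏ p ∈ S, p)
      (Finset.powersetCard k (Pool.Agent.Y655.SW.Pr y) : Set (Finset ℕ)) := by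
    intro S hS S' hS' h
    have h1 := Nat.primeFactors_prod (hpr S hS)
    have h2 := Nat.primeFactors_prod (hpr S' hS')
    simp only at h
    rw [← h1, ← h2, h]
  have h1 : (k.factorial : ℝ) ^ 2 *
      ∑ S ∈ Finset.powersetCard k (Pool.Agent.Y655.SW.Pr y), ∏ p ∈ S, (1 / (p : ℝ)) =
      ∑ n ∈ (Finset.powersetCard k (Pool.Agent.Y655.SW.Pr y)).image (fun S : Finset ℕ => ∏ p ∈ S, p),
        (pA y ^ k) n ^ 2 := by
    rw [Finset.sum_image hinj, Finset.mul_sum]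
    refine Finset.sum_congr rfl fun S hS => ?_
    have h2 := Finset.mem_powersetCard.1 hS
    have h3 := pA_prod hy S h2.1
    rw [h2.2] at h3
    exact h3.symm
  rw [h1]
  unfold SS
  rw [← Finset.sum_filter_ne_zero]
  refine Finset.sum_le_sum_of_subset_of_nonneg ?_ fun _ _ _ => sq_nonneg _
  intro n hn
  rw [Finset.mem_filter] at hn
  obtain ⟨hn, hne⟩ := hn
  rw [Finset.mem_Icc]
  have h4 : (pA y ^ k) n ≠ 0 := by
    intro h; apply hne; rw [h]; norm_num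
  refine ⟨?_, pA_pow_le hy k n h4⟩
  rw [Finset.mem_image] at hn
  obtain ⟨S, hS, rfl⟩ := hn
  exact Nat.one_le_iff_ne_zero.2 (Finset.prod_ne_zero_iff.2 fun q hq => (hpr S hS q hq).ne_zero)

lemma one_add_ge {x : ℝ} (hx : 0 ≤ x) : Real.exp (x - x ^ 2) ≤ 1 + x := by
  have h1 : 0 < 1 + x := by linarith
  rw [← Real.le_log_iff_exp_le h1]
  have h2 := Real.one_sub_inv_le_log_of_pos h1
  refine le_trans ?_ h2
  have h3 : 1 - (1 + x)⁻¹ = x / (1 + x) := by field_simp; ring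
  rw [h3, le_div_iff₀ h1]
  nlinarith [pow_nonneg hx 3]

lemma sum_inv_sq_le (y : ℝ) : ∑ p ∈ Pool.Agent.Y655.SW.Pr y, (1 / (p : ℝ)) ^ 2 ≤ 2 := by
  have h1 : ∑ p ∈ Pool.Agent.Y655.SW.Pr y, (1 / (p : ℝ)) ^ 2 ≤ ∑ p ∈ Finset.Ioo 0 (⌊y⌋₊ + 1), ((p : ℝ) ^ 2)⁻¹ := by
    have h2 : Pool.Agent.Y655.SW.Pr y ⊆ Finset.Ioo 0 (⌊y⌋₊ + 1) := by
      intro p hp
      rw [Finset.mem_filter, Finset.mem_Icc] at hp
      rw [Finset.mem_Ioo]
      omega
    calc ∑ p ∈ Pool.Agent.Y655.SW.Pr y, (1 / (p : ℝ)) ^ 2 = ∑ p ∈ Pool.Agent.Y655.SW.Pr y, ((p : ℝ) ^ 2)⁻¹ := by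
          refine Finset.sum_congr rfl fun p _ => ?_
          rw [one_div, inv_pow]
      _ ≤ _ := Finset.sum_le_sum_of_subset_of_nonneg h2 fun _ _ _ => by positivity
  have h3 := sum_Ioo_inv_sq_le (α := ℝ) 0 (⌊y⌋₊ + 1)
  refine h1.trans (h3.trans ?_)
  norm_num

lemma prod_ge (κ y : ℝ) :
    Real.exp (-(2 * κ ^ 4)) * Real.exp (κ ^ 2 * VV y) ≤
      ∏ p ∈ Pool.Agent.Y655.SW.Pr y, (1 + κ ^ 2 * (1 / (p : ℝ))) := by
  have h1 : ∏ p ∈ Pool.Agent.Y655.SW.Pr y, Real.exp (κ ^ 2 * (1 / (p : ℝ)) - (κ ^ 2 * (1 / (p : ℝ))) ^ 2) ≤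
      ∏ p ∈ Pool.Agent.Y655.SW.Pr y, (1 + κ ^ 2 * (1 / (p : ℝ))) :=
    Finset.prod_le_prod (fun _ _ => (Real.exp_pos _).le) fun p _ => one_add_ge (by positivity)
  refine le_trans ?_ h1
  rw [← Real.exp_sum, ← Real.exp_add, Finset.sum_sub_distrib, ← Finset.mul_sum]
  refine Real.exp_le_exp.2 ?_
  have h2 : ∑ p ∈ Pool.Agent.Y655.SW.Pr y, (κ ^ 2 * (1 / (p : ℝ))) ^ 2 =
      κ ^ 4 * ∑ p ∈ Pool.Agent.Y655.SW.Pr y, (1 / (p : ℝ)) ^ 2 := by
    rw [Finset.mul_sum]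
    refine Finset.sum_congr rfl fun p _ => ?_
    ring
  rw [h2]
  have h3 := sum_inv_sq_le y
  have h4 : κ ^ 4 * ∑ p ∈ Pool.Agent.Y655.SW.Pr y, (1 / (p : ℝ)) ^ 2 ≤ κ ^ 4 * 2 :=
    mul_le_mul_of_nonneg_left h3 (by positivity)
  have h5 : VV y = ∑ p ∈ Pool.Agent.Y655.SW.Pr y, (1 / (p : ℝ)) := rfl
  rw [h5]
  linarith

/-- the sum of the squares of the coefficients from below -/
lemma lower_sum {y : ℝ} (hy : 0 ≤ y) (κ : ℝ) (K : ℕ) :
    Real.exp (-(2 * κ ^ 4)) * Real.exp (κ ^ 2 * VV y) - Real.exp (-(K : ℝ)) * Real.exp (κ ^ 2 * Real.exp 1 * VV y) ≤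
      ∑ m ∈ Finset.range (K + 1), (κ ^ m / (m.factorial : ℝ)) ^ 2 * SS y m := by
  classical
  set P := Pool.Agent.Y655.SW.Pr y with hP
  -- the sum from below by the sum over subsets
  have h1 : ∑ m ∈ Finset.range (K + 1), ∑ S ∈ Finset.powersetCard m P, ∏ p ∈ S, (κ ^ 2 * (1 / (p : ℝ))) ≤
      ∑ m ∈ Finset.range (K + 1), (κ ^ m / (m.factorial : ℝ)) ^ 2 * SS y m := by
    refine Finset.sum_le_sum fun m _ => ?_
    have h2 := mul_le_mul_of_nonneg_left (SS_ge hy m) (sq_nonneg (κ ^ m / (m.factorial : ℝ)))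
    refine le_trans (le_of_eq ?_) h2
    have h3 : ∑ S ∈ Finset.powersetCard m P, ∏ p ∈ S, (κ ^ 2 * (1 / (p : ℝ))) =
        (κ ^ 2) ^ m * ∑ S ∈ Finset.powersetCard m P, ∏ p ∈ S, (1 / (p : ℝ)) := by
      rw [Finset.mul_sum]
      refine Finset.sum_congr rfl fun S hS => ?_
      rw [Finset.prod_mul_distrib, Finset.prod_const, (Finset.mem_powersetCard.1 hS).2]
    rw [h3, ← mul_assoc]
    congr 1
    have : (m.factorial : ℝ) ≠ 0 := by positivity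
    field_simp
    rw [← pow_mul, ← pow_mul, mul_comm]
  refine le_trans ?_ h1
  -- the sum over all subsets
  have h4 : ∑ S ∈ P.powerset.filter (fun S => S.card ≤ K), ∏ p ∈ S, (κ ^ 2 * (1 / (p : ℝ))) =
      ∑ m ∈ Finset.range (K + 1), ∑ S ∈ Finset.powersetCard m P, ∏ p ∈ S, (κ ^ 2 * (1 / (p : ℝ))) := by
    have hmap : ∀ S ∈ P.powerset.filter (fun S => S.card ≤ K), S.card ∈ Finset.range (K + 1) := by
      intro S hS
      rw [Finset.mem_filter] at hS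
      rw [Finset.mem_range]
      omega
    rw [← Finset.sum_fiberwise_of_maps_to hmap]
    refine Finset.sum_congr rfl fun m hm => ?_
    rw [Finset.mem_range] at hm
    refine Finset.sum_congr ?_ fun _ _ => rfl
    ext S
    simp only [Finset.mem_filter, Finset.mem_powerset, Finset.mem_powersetCard]
    constructor
    · rintro ⟨⟨h5, _⟩, h6⟩; exact ⟨h5, h6⟩
    · rintro ⟨h5, h6⟩; exact ⟨⟨h5, by omega⟩, h6⟩
  rw [← h4]
  have h5 : ∏ p ∈ P, (1 + κ ^ 2 * (1 / (p : ℝ))) = ∑ S ∈ P.powerset, ∏ p ∈ S, (κ ^ 2 * (1 / (p : ℝ))) :=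
    Finset.prod_one_add _
  have h6 := Finset.sum_filter_add_sum_filter_not P.powerset (fun S => S.card ≤ K)
    (fun S => ∏ p ∈ S, (κ ^ 2 * (1 / (p : ℝ))))
  have h7 : ∑ S ∈ P.powerset.filter (fun S => ¬ S.card ≤ K), ∏ p ∈ S, (κ ^ 2 * (1 / (p : ℝ))) ≤
      Real.exp (-(K : ℝ)) * Real.exp (κ ^ 2 * Real.exp 1 * VV y) := by
    have h8 : ∑ S ∈ P.powerset.filter (fun S => ¬ S.card ≤ K), ∏ p ∈ S, (κ ^ 2 * (1 / (p : ℝ))) ≤
        ∑ S ∈ P.powerset, Real.exp (-(K : ℝ)) * ∏ p ∈ S, (κ ^ 2 * Real.exp 1 * (1 / (p : ℝ))) := by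
      refine le_trans (Finset.sum_le_sum fun S hS => ?_) (Finset.sum_le_sum_of_subset_of_nonneg
        (Finset.filter_subset _ _) fun S _ _ => mul_nonneg (Real.exp_pos _).le
          (Finset.prod_nonneg fun p _ => by positivity))
      rw [Finset.mem_filter] at hS
      have h9 : ∏ p ∈ S, (κ ^ 2 * Real.exp 1 * (1 / (p : ℝ))) =
          Real.exp S.card * ∏ p ∈ S, (κ ^ 2 * (1 / (p : ℝ))) := by
        have h10 : ∀ p ∈ S, (κ ^ 2 * Real.exp 1 * (1 / (p : ℝ))) = Real.exp 1 * (κ ^ 2 * (1 / (p : ℝ))) :=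
          fun p _ => by ring
        rw [Finset.prod_congr rfl h10, Finset.prod_mul_distrib, Finset.prod_const, ← Real.exp_nat_mul, mul_one]
      rw [h9, ← mul_assoc, ← Real.exp_add]
      have h11 : 0 ≤ ∏ p ∈ S, (κ ^ 2 * (1 / (p : ℝ))) := Finset.prod_nonneg fun p _ => by positivity
      refine le_mul_of_one_le_left h11 (Real.one_le_exp ?_)
      have : K ≤ S.card := by omega
      have : (K : ℝ) ≤ S.card := by exact_mod_cast this
      linarith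
    refine h8.trans ?_
    rw [← Finset.mul_sum, ← Finset.prod_one_add]
    refine mul_le_mul_of_nonneg_left ?_ (Real.exp_pos _).le
    have h12 : VV y = ∑ p ∈ P, (1 / (p : ℝ)) := rfl
    rw [h12, Finset.mul_sum, Real.exp_sum]
    refine Finset.prod_le_prod (fun p _ => by positivity) fun p _ => ?_
    have := Real.add_one_le_exp (κ ^ 2 * Real.exp 1 * (1 / (p : ℝ)))
    linarith
  have h13 := prod_ge κ y
  rw [← hP] at h13
  linarith

end

end Pool.Agent.Y931.LD
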